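import Mathlib
import Pool.Agent.MP_d636e9_nt.Main

namespace Pool.Agent.Results.MP_d636e9_nt.Supercong

open Finset Pool.Agent.MP_d636e9_nt

theorem result (u : ℕ → ℤ) (hu0 : u 0 = 0) (hu1 : u 1 = 1)
    (hu : ∀ k, u (k + 2) = 4 * u (k + 1) - u k) (p : ℕ) (hp : p.Prime) (_hp3 : 3 < p) :
    (p % 12 = 7 → ∀ x y : ℤ, (p : ℤ) = x ^ 2 + 3 * y ^ 2 → y % 4 = 1 →
      (p : ℤ) ^ 2 ∣ (∑ k ∈ range p, (u k : ℚ) / 4 ^ k * ((2 * k).choose k : ℚ) ^ 2 -
        (-1) ^ ((p + 1) / 4) * (4 * (y : ℚ) - (p : ℚ) / (3 * y))).num ∧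
      (p : ℤ) ^ 2 ∣ (∑ k ∈ range p, ((k : ℚ) * u k) / 4 ^ k * ((2 * k).choose k : ℚ) ^ 2 -
        (-1) ^ ((p - 3) / 4) * (6 * (y : ℚ) - 7 * (p : ℚ) / (3 * y))).num) ∧
    (p % 12 = 1 →
      (p : ℤ) ^ 2 ∣ (∑ k ∈ range p, (u k : ℚ) / 4 ^ k * ((2 * k).choose k : ℚ) ^ 2).num) := by
  have : Fact p.Prime := ⟨hp⟩
  have key : ∀ m, p = 6 * m + 1 →
      Rd p (∑ k ∈ range p, (u k : ℚ) / 4 ^ k * ((2 * k).choose k : ℚ) ^ 2) (sF p (3 * m) 1).im ∧
      Rd p (∑ k ∈ range p, ((k : ℚ) * u k) / 4 ^ k * ((2 * k).choose k : ℚ) ^ 2)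
        (sD p (3 * m) 1).im := fun m hm =>
    ⟨by simpa only [sF, Nat.cast_one, one_mul, Pi.one_apply] using
      red_sum hu0 hu1 hu (show p = 2 * (3 * m) + 1 by omega) fun _ => 1,
      red_sum hu0 hu1 hu (show p = 2 * (3 * m) + 1 by omega) fun k => k⟩
  constructor
  · intro h7 x y hxy hy
    have hm : p = 6 * (p / 6) + 1 := by omega
    obtain ⟨v, hv, hF, hD⟩ := main_odd hm (Nat.odd_iff.2 (by omega)) hxy.symm hy
    obtain ⟨k0, k1⟩ := key _ hm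
    have r3 : Rd p (3 * y) (3 * y) := (Red.ofNat 3).mul (Red.intCast y)
    constructor
    · have := (k0.sub ((Red.one.neg.pow ((p + 1) / 4)).mul (((Red.ofNat 4).mul
        (Red.intCast y)).sub ((Red.natCast p).div r3 hv)))).congr rfl (r' := 0) (by
          rw [hF, show (p + 1) / 4 = (p - 3) / 4 + 1 by omega]
          ring)
      rw [← Nat.cast_pow]
      exact this.dvd_num
    · have := (k1.sub ((Red.one.neg.pow ((p - 3) / 4)).mul (((Red.ofNat 6).mul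
        (Red.intCast y)).sub (((Red.ofNat 7).mul (Red.natCast p)).div r3 hv)))).congr rfl
          (r' := 0) (by rw [hD]; ring)
      rw [← Nat.cast_pow]
      exact this.dvd_num
  · intro h1
    have hm : p = 6 * (p / 6) + 1 := by omega
    have := (key _ hm).1.congr rfl (main_even hm (Nat.even_iff.2 (by omega)))
    rw [← Nat.cast_pow]
    exact this.dvd_num

end Pool.Agent.Results.MP_d636e9_nt.Supercong
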